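import Pool.Agent.Helper11.PP.Inf

set_option autoImplicit false

/-!
# Module I6 of MP_505789_lc: names exist
-/

namespace Pool.Agent.Helper89.PP

open Cardinal Filter Set
open Pool.Agent.Helper11.PP
open Pool.Agent.H32.PP (MAsc CI mk_CI mk_Iio_CI two_power_le wf_rec)

/-- an injective family of functions -/
lemma exists_inj {X : Type} (hX : #X ≤ (2 : Cardinal) ^ 𝔠) :
    ∃ f : X → (CI → Bool), Function.Injective f := by
  have h : #X ≤ #(CI → Bool) := by
    have h1 : #(CI → Bool) = 2 ^ 𝔠 := by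
      have := Cardinal.power_def Bool CI
      rw [← this, mk_CI]
      simp
    rw [h1]; exact hX
  obtain ⟨f⟩ := Cardinal.le_def _ _ |>.1 h
  exact ⟨f, f.injective⟩

/-- codes of the functions on an initial segment -/
lemma exists_code (hMA : MAsc) (δ : CI) :
    ∃ f : (Iio δ → Bool) → CI, Function.Injective f := by
  have h : #(Iio δ → Bool) ≤ #CI := by
    have h1 : #(Iio δ → Bool) = 2 ^ #(Iio δ) := by
      have := Cardinal.power_def Bool (Iio δ)
      rw [← this]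
      simp
    rw [h1, mk_CI]
    exact two_power_le hMA (mk_Iio_CI δ)
  obtain ⟨f⟩ := Cardinal.le_def _ _ |>.1 h
  exact ⟨f, f.injective⟩

/-- the closure of `y` is small -/
lemma mk_cl_lt {X : Type} (ch : X → CI → X) (δ : CI) (y : X) : #(cl ch δ y) < 𝔠 := by
  have h1 : #(cl ch δ y) ≤ #(List (Iio δ)) := by
    have hs : cl ch δ y ⊆ range (fun l : List (Iio δ) => (l.map Subtype.val).foldl ch y) := by
      rintro z ⟨l, hl, rfl⟩
      refine ⟨l.attach.map (fun ξ => ⟨ξ.1, hl ξ.1 ξ.2⟩), ?_⟩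
      simp only [List.map_map]
      congr 1
      conv_rhs => rw [← List.attach_map_subtype_val l]
      rfl
    exact (Cardinal.mk_le_mk_of_subset hs).trans Cardinal.mk_range_le
  refine h1.trans_lt ?_
  refine (Cardinal.mk_list_le_max _).trans_lt ?_
  exact max_lt Cardinal.aleph0_lt_continuum (mk_Iio_CI δ)

/-- the closure is transitive -/
lemma cl_trans {X : Type} (ch : X → CI → X) (δ : CI) {y z : X} (hz : z ∈ cl ch δ y) :
    cl ch δ z ⊆ cl ch δ y := by
  obtain ⟨l, hl, rfl⟩ := hz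
  rintro w ⟨l', hl', rfl⟩
  refine ⟨l ++ l', ?_, ?_⟩
  · intro ξ hξ
    rcases List.mem_append.1 hξ with h | h
    · exact hl ξ h
    · exact hl' ξ h
  · rw [List.foldl_append]

lemma cl_mono {X : Type} (ch : X → CI → X) {γ δ : CI} (h : γ ≤ δ) (y : X) :
    cl ch γ y ⊆ cl ch δ y := by
  rintro w ⟨l, hl, rfl⟩
  exact ⟨l, fun ξ hξ => (hl ξ hξ).trans_le h, rfl⟩

lemma self_mem_cl {X : Type} (ch : X → CI → X) (δ : CI) (y : X) : y ∈ cl ch δ y :=
  ⟨[], by simp, rfl⟩

lemma cl_le {X : Type} [PartialOrder X] (ch : X → CI → X) (hch : ∀ y ξ, ch y ξ ≤ y) (δ : CI)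
    (y : X) {z : X} (hz : z ∈ cl ch δ y) : z ≤ y := by
  obtain ⟨l, -, rfl⟩ := hz
  induction l generalizing y with
  | nil => exact le_rfl
  | cons a l ih => exact (ih (ch y a)).trans (hch y a)

/-- a bound of the class indices -/
lemma exists_bd (hB : Bdd) {X : Type} (ch : X → CI → X) (ν : CI → X → CI) :
    ∃ bd : CI → X → CI, (∀ δ y, ∀ z ∈ cl ch δ y, ν δ z < bd δ y) ∧
      ∀ δ y, ∀ z ∈ cl ch δ y, bd δ z ≤ bd δ y := by
  have hex : ∀ δ y, {b : CI | ∀ z ∈ cl ch δ y, ν δ z < b}.Nonempty := by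
    intro δ y
    obtain ⟨b, hb⟩ := hB (ν δ '' cl ch δ y) (Cardinal.mk_image_le.trans_lt (mk_cl_lt ch δ y))
    exact ⟨b, fun z hz => hb _ ⟨z, hz, rfl⟩⟩
  have hwf : WellFounded (fun a b : CI => a < b) := wellFounded_lt
  refine ⟨fun δ y => hwf.min _ (hex δ y), ?_, ?_⟩
  · intro δ y
    exact hwf.min_mem _ (hex δ y)
  · intro δ y z hz
    refine not_lt.1 (hwf.not_lt_min _ ?_)
    intro w hw
    exact hwf.min_mem _ (hex δ y) w (cl_trans ch δ hz hw)

/-- a level at which `x` is separated from the closure of `y` -/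
lemma exists_sep (hB : Bdd) {X : Type} [PartialOrder X] (ch : X → CI → X)
    (hch : ∀ y ξ, ch y ξ ≤ y) (f : X → (CI → Bool)) (hf : Function.Injective f) (x y : X)
    (hxy : ¬ x ≤ y) (δ₀ : CI) :
    ∃ δ, δ₀ ≤ δ ∧ ∀ z ∈ cl ch δ y, ∃ ξ < δ, f z ξ ≠ f x ξ := by
  classical
  have hne : ∀ δ, ∀ z ∈ cl ch δ y, ∃ ξ, f z ξ ≠ f x ξ := by
    intro δ z hz
    by_contra hcon
    push Not at hcon
    have : z = x := hf (funext hcon)
    exact hxy (this ▸ cl_le ch hch δ y hz)
  -- a function choosing a coordinate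
  obtain ⟨c, hc⟩ : ∃ c : X → CI, ∀ z, (∃ ξ, f z ξ ≠ f x ξ) → f z (c z) ≠ f x (c z) := by
    refine ⟨fun z => if h : ∃ ξ, f z ξ ≠ f x ξ then h.choose else δ₀, fun z hz => ?_⟩
    simp only [dif_pos hz]
    exact hz.choose_spec
  -- one step
  have step : ∀ δ, ∃ δ', δ < δ' ∧ ∀ z ∈ cl ch δ y, c z < δ' := by
    intro δ
    obtain ⟨b, hb⟩ := hB (insert δ (c '' cl ch δ y)) (by
      refine (Cardinal.mk_insert_le).trans_lt ?_
      exact Cardinal.add_lt_of_lt Cardinal.aleph0_le_continuum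
        (Cardinal.mk_image_le.trans_lt (mk_cl_lt ch δ y)) (by simpa using Cardinal.nat_lt_continuum 1))
    exact ⟨b, hb _ (mem_insert _ _), fun z hz => hb _ (mem_insert_of_mem _ ⟨z, hz, rfl⟩)⟩
  choose g hg1 hg2 using step
  let d : ℕ → CI := fun k => g^[k] δ₀
  have hd : ∀ k, d (k + 1) = g (d k) := fun k => Function.iterate_succ_apply' g k δ₀
  have hmono : StrictMono d := strictMono_nat_of_lt_succ fun k => by
    rw [hd]; exact hg1 _
  have hex : {b : CI | ∀ k, d k ≤ b}.Nonempty := by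
    obtain ⟨b, hb⟩ := hB (range d)
      (Cardinal.mk_range_le.trans_lt (by simpa using Cardinal.aleph0_lt_continuum))
    exact ⟨b, fun k => (hb _ ⟨k, rfl⟩).le⟩
  have hwf : WellFounded (fun a b : CI => a < b) := wellFounded_lt
  let δ := hwf.min _ hex
  have hδ : ∀ k, d k ≤ δ := hwf.min_mem _ hex
  have hlt : ∀ a < δ, ∃ k, a < d k := by
    intro a ha
    by_contra hcon
    push Not at hcon
    exact hwf.not_lt_min {b : CI | ∀ k, d k ≤ b} hcon ha
  refine ⟨δ, hδ 0, ?_⟩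
  rintro z ⟨l, hl, rfl⟩
  obtain ⟨k, hk⟩ : ∃ k, ∀ ξ ∈ l, ξ < d k := by
    clear_value δ
    induction l with
    | nil => exact ⟨0, by simp⟩
    | cons a l ih =>
      obtain ⟨k1, h1⟩ := ih (fun ξ hξ => hl ξ (List.mem_cons_of_mem _ hξ))
      obtain ⟨k2, h2⟩ := hlt a (hl a List.mem_cons_self)
      refine ⟨max k1 k2, ?_⟩
      intro ξ hξ
      rcases List.mem_cons.1 hξ with rfl | h
      · exact h2.trans_le (hmono.monotone (le_max_right _ _))
      · exact (h1 ξ h).trans_le (hmono.monotone (le_max_left _ _))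
  have hz : l.foldl ch y ∈ cl ch (d k) y := ⟨l, hk, rfl⟩
  refine ⟨c (l.foldl ch y), ?_, hc _ (hne _ _ hz)⟩
  exact (hg2 _ _ hz).trans_le (by rw [← hd]; exact hδ (k + 1))

/-- **I6.** -/
theorem names_of (hlab : ST_labels) (hlev : ST_level) : ST_names := by
  classical
  intro hMA hB U hU X _ hX ch hch i hi
  obtain ⟨f, hf⟩ := exists_inj hX
  choose code hcode using exists_code hMA
  let ν : CI → X → CI := fun δ x => code δ (fun ξ => f x ξ)
  have hν : ∀ δ x x', ν δ x = ν δ x' ↔ ∀ ξ < δ, f x ξ = f x' ξ := by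
    intro δ x x'
    constructor
    · intro h ξ hξ
      exact congrFun (hcode δ h) ⟨ξ, hξ⟩
    · intro h
      exact congrArg (code δ) (funext fun ξ => h ξ.1 ξ.2)
  have hcoh : Coh ν := by
    intro γ δ x x' hγδ h
    rw [hν] at h ⊢
    exact fun ξ hξ => h ξ (hξ.trans_le hγδ)
  obtain ⟨lam, K, hL⟩ := hlab U hU X ν hcoh i hi
  obtain ⟨bd, hbd1, hbd2⟩ := exists_bd hB ch ν
  -- the names
  obtain ⟨s, hs⟩ : ∃ s : CI → X → ℕ → Nm, ∀ δ, ∀ y, LevelOK U ch ν i lam K bd δ
      (fun γ => if γ < δ then s γ else fun _ _ => 0) (s δ) y := by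
    obtain ⟨s, hs⟩ := wf_rec (ι := CI) (X := X → ℕ → Nm) (· < ·) wellFounded_lt
      (fun δ g t => ∀ y, LevelOK U ch ν i lam K bd δ
        (fun γ => if h : γ < δ then g γ h else fun _ _ => 0) t y) (by
      intro δ old hold
      obtain ⟨t, ht⟩ := hlev hB U hU X ch hch ν hcoh i hi lam K hL bd hbd1 hbd2 δ old (by
        intro γ hγ y
        have h1 := hold γ hγ y
        exact ⟨h1.name, h1.root, h1.child, fun γ' hγ' => by
          have h2 := h1.cut γ' hγ'
          simpa only [dif_pos hγ'] using h2, h1.height, h1.conf, h1.excl⟩)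
      refine ⟨t, fun y => ?_⟩
      have h1 := ht y
      exact ⟨h1.name, h1.root, h1.child, fun γ' hγ' => by
          have h2 := h1.cut γ' hγ'
          simpa only [dif_pos hγ'] using h2, h1.height, h1.conf, h1.excl⟩)
    refine ⟨s, fun δ y => ?_⟩
    have h1 := hs δ y
    exact ⟨h1.name, h1.root, h1.child, fun γ' hγ' => by
      have h2 := h1.cut γ' hγ'
      simpa only [dif_pos hγ', if_pos hγ'] using h2, h1.height, h1.conf, h1.excl⟩
  have hs' : ∀ δ y, LevelOK U ch ν i lam K bd δ s (s δ) y := by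
    intro δ y
    have h1 := hs δ y
    exact ⟨h1.name, h1.root, h1.child, fun γ' hγ' => by
      have h2 := h1.cut γ' hγ'
      simpa only [if_pos hγ'] using h2, h1.height, h1.conf, h1.excl⟩
  refine ⟨s, fun δ y => (hs' δ y).name, fun δ y => (hs' δ y).child,
    fun γ δ y h => (hs' δ y).cut γ h, ?_⟩
  intro x y hxy δ₀
  obtain ⟨δ, hδ, hsep⟩ := exists_sep hB ch hch f hf x y hxy δ₀
  refine ⟨δ, hδ, ?_⟩
  have hne : ∀ z ∈ cl ch δ y, ν δ z ≠ ν δ x := by
    intro z hz h
    obtain ⟨ξ, hξ, hξ2⟩ := hsep z hz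
    exact hξ2 ((hν δ z x).1 h ξ hξ)
  have hmain : ∀ᶠ n in (U : Filter ℕ), ∀ w, s δ y n w ≠ 0 →
      s δ y n w ≠ lam δ (ν δ x) n + 1 := by
    rcases lt_or_ge (ν δ x) (bd δ y) with h | h
    · filter_upwards [(hs' δ y).excl (ν δ x) h hne] with n hn w _ using hn w
    · have hK : ∀ᶠ n in (U : Filter ℕ), K δ (bd δ y) n ⊆ K δ (ν δ x) n := by
        rcases h.lt_or_eq with h | h
        · filter_upwards [hL.mono δ _ _ h] with n hn using hn.1
        · rw [h]; exact Filter.Eventually.of_forall fun n => subset_rfl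
      filter_upwards [hK, (hs' δ y).conf, hL.lt δ (ν δ x), hL.nmem δ (ν δ x)] with n h1 h2 h3 h4
      intro w hw heq
      rcases h2 w hw with h5 | h5
      · omega
      · rw [heq, Nat.add_sub_cancel] at h5
        exact h4 (h1 h5)
  filter_upwards [hmain, (hs' δ x).root] with n h1 h2 w hw heq
  apply h1 w hw
  rw [← h2, ← heq]
  simp [sub]

end Pool.Agent.Helper89.PP
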